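import Mathlib

/-!
# Disjoint half dimensional subspaces which are isotropic for given alternating forms

Board note 2597, step (3).
-/

set_option autoImplicit false

namespace Pool.Agent.Lib_MP_53dcbc_sd

open Module

/-- A vector space over `F_p` is not the union of `p` proper subspaces. -/
theorem cover {p : ℕ} [Fact p.Prime] {V : Type} [AddCommGroup V] [Module (ZMod p) V] [Finite V]
    (S : ZMod p → Submodule (ZMod p) V) (hS : ∀ c, S c ≠ ⊤) : ∃ v : V, ∀ c, v ∉ S c := by
  classical
  have : Fintype V := Fintype.ofFinite V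
  by_contra hcon
  push Not at hcon
  have hp := (Fact.out : p.Prime)
  have hcard : ∀ c, p * (Nat.card (S c)) ≤ Nat.card V := by
    intro c
    have h1 := Submodule.card_eq_card_quotient_mul_card (S c)
    have h2 : Nat.card (V ⧸ S c) = p ^ finrank (ZMod p) (V ⧸ S c) := by
      rw [Module.natCard_eq_pow_finrank (K := ZMod p), Nat.card_zmod]
    have h3 : 0 < finrank (ZMod p) (V ⧸ S c) := by
      have : Nontrivial (V ⧸ S c) := Submodule.Quotient.nontrivial_iff.2 (hS c)
      exact Module.finrank_pos
    have h4 : p ≤ Nat.card (V ⧸ S c) := by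
      rw [h2]
      exact Nat.le_self_pow h3.ne' p
    rw [h1, mul_comm]
    exact Nat.mul_le_mul_left _ h4
  have h1 : (Finset.univ.erase (0 : V)) ⊆
      (Finset.univ : Finset (ZMod p)).biUnion fun c =>
        (Finset.univ.filter fun v : V => v ∈ S c).erase 0 := by
    intro v hv
    obtain ⟨c, hc⟩ := hcon v
    rw [Finset.mem_biUnion]
    refine ⟨c, Finset.mem_univ c, ?_⟩
    rw [Finset.mem_erase, Finset.mem_filter]
    exact ⟨Finset.ne_of_mem_erase hv, Finset.mem_univ v, hc⟩
  have h2 := (Finset.card_le_card h1).trans Finset.card_biUnion_le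
  have h3 : ∀ c ∈ (Finset.univ : Finset (ZMod p)),
      p * ((Finset.univ.filter fun v : V => v ∈ S c).erase 0).card + p ≤ Nat.card V := by
    intro c _
    rw [Finset.card_erase_of_mem (by rw [Finset.mem_filter]; exact ⟨Finset.mem_univ _, (S c).zero_mem⟩)]
    have h4 : (Finset.univ.filter fun v : V => v ∈ S c).card = Nat.card (S c) := by
      rw [Nat.card_eq_fintype_card, Fintype.card_subtype]
    have h5 : 0 < (Finset.univ.filter fun v : V => v ∈ S c).card :=
      Finset.card_pos.2 ⟨0, by rw [Finset.mem_filter]; exact ⟨Finset.mem_univ _, (S c).zero_mem⟩⟩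
    have h6 := hcard c
    rw [← h4] at h6
    obtain ⟨k, hk⟩ := Nat.exists_eq_succ_of_ne_zero h5.ne'
    rw [hk] at h6 ⊢
    rw [Nat.succ_sub_one]
    calc p * k + p = p * k.succ := by rw [Nat.succ_eq_add_one]; ring
      _ ≤ _ := h6
  have h4 : ∑ c ∈ (Finset.univ : Finset (ZMod p)),
      (p * ((Finset.univ.filter fun v : V => v ∈ S c).erase 0).card + p) ≤ p * Nat.card V := by
    refine (Finset.sum_le_sum h3).trans (le_of_eq ?_)
    rw [Finset.sum_const, Finset.card_univ, ZMod.card, smul_eq_mul]
  rw [Finset.sum_add_distrib, ← Finset.mul_sum, Finset.sum_const, Finset.card_univ, ZMod.card,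
    smul_eq_mul] at h4
  rw [Finset.card_erase_of_mem (Finset.mem_univ _), Finset.card_univ,
    ← Nat.card_eq_fintype_card] at h2
  have h5 : p * (Nat.card V - 1) ≤ p * ∑ c ∈ (Finset.univ : Finset (ZMod p)),
      ((Finset.univ.filter fun v : V => v ∈ S c).erase 0).card := Nat.mul_le_mul_left _ h2
  have h6 : 0 < Nat.card V := Nat.card_pos
  have h7 : p * (Nat.card V - 1) + p = p * Nat.card V := by
    obtain ⟨k, hk⟩ := Nat.exists_eq_succ_of_ne_zero h6.ne'
    rw [hk, Nat.succ_sub_one, Nat.succ_eq_add_one]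
    ring
  have h8 : p * p ≤ p := by omega
  have h9 : 2 * p ≤ p * p := Nat.mul_le_mul_right p hp.two_le
  have := hp.pos
  omega

/-- A pair of independent vectors on which none of the nonzero forms vanishes. -/
theorem pair {p : ℕ} [Fact p.Prime] {V : Type} [AddCommGroup V] [Module (ZMod p) V] [Finite V]
    (hV : 2 ≤ finrank (ZMod p) V) (α : ZMod p → V →ₗ[ZMod p] V →ₗ[ZMod p] ZMod p)
    (hα : ∀ c, (α c).IsAlt) :
    ∃ a b : V, LinearIndependent (ZMod p) ![a, b] ∧ ∀ c, α c ≠ 0 → α c a b ≠ 0 := by
  classical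
  by_cases h0 : ∀ c, α c = 0
  · have h1 : (2 : ℕ) ≤ finrank (ZMod p) V := hV
    obtain ⟨b⟩ : Nonempty (Basis (Fin (finrank (ZMod p) V)) (ZMod p) V) :=
      ⟨Module.finBasis (ZMod p) V⟩
    refine ⟨b ⟨0, by omega⟩, b ⟨1, by omega⟩, ?_, fun c hc => absurd (h0 c) hc⟩
    have h2 := b.linearIndependent.comp (![⟨0, by omega⟩, ⟨1, by omega⟩] :
      Fin 2 → Fin (finrank (ZMod p) V)) (by
        intro i j hij
        fin_cases i <;> fin_cases j <;> simp_all)
    convert h2 using 1
    funext i
    fin_cases i <;> rfl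
  · push Not at h0
    obtain ⟨c₀, hc₀⟩ := h0
    have hpos : 0 < finrank (ZMod p) V := by omega
    have hbot : (⊥ : Submodule (ZMod p) V) ≠ ⊤ := by
      intro h
      have := finrank_bot (ZMod p) V
      rw [h, finrank_top] at this
      omega
    obtain ⟨a, ha⟩ := cover (fun c => if α c = 0 then (⊥ : Submodule (ZMod p) V) else
      LinearMap.ker (α c)) (fun c => by
        by_cases h : α c = 0
        · simp only [h, if_true]
          exact hbot
        · simp only [h, if_false]
          exact fun h1 => h (LinearMap.ker_eq_top.1 h1))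
    obtain ⟨b, hb⟩ := cover (fun c => if α c = 0 then (⊥ : Submodule (ZMod p) V) else
      LinearMap.ker (α c a)) (fun c => by
        by_cases h : α c = 0
        · simp only [h, if_true]
          exact hbot
        · simp only [h, if_false]
          intro h1
          have h2 := ha c
          simp only [h, if_false] at h2
          exact h2 (LinearMap.mem_ker.2 (LinearMap.ker_eq_top.1 h1)))
    have hab : ∀ c, α c ≠ 0 → α c a b ≠ 0 := by
      intro c hc h1
      have h2 := hb c
      simp only [hc, if_false] at h2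
      exact h2 (LinearMap.mem_ker.2 h1)
    refine ⟨a, b, ?_, hab⟩
    rw [LinearIndependent.pair_iff]
    intro s t hst
    have h1 := hab c₀ hc₀
    have h2 : α c₀ a (s • a + t • b) = 0 := by rw [hst, map_zero]
    have h3 : α c₀ (s • a + t • b) b = 0 := by rw [hst, map_zero, LinearMap.zero_apply]
    rw [map_add, map_smul, map_smul, hα c₀ a, smul_zero, zero_add, smul_eq_mul] at h2
    rw [map_add, map_smul, map_smul, LinearMap.add_apply, LinearMap.smul_apply,
      LinearMap.smul_apply, hα c₀ b, smul_zero, add_zero, smul_eq_mul] at h3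
    exact ⟨(mul_eq_zero.1 h3).resolve_right h1, (mul_eq_zero.1 h2).resolve_right h1⟩

theorem lagr {p : ℕ} [Fact p.Prime] : ∀ (n : ℕ) (V : Type) [AddCommGroup V] [Module (ZMod p) V]
    [Finite V], finrank (ZMod p) V = 2 * n →
    ∀ (α : ZMod p → V →ₗ[ZMod p] V →ₗ[ZMod p] ZMod p), (∀ c, (α c).IsAlt) →
    ∃ A : ZMod p → Submodule (ZMod p) V, (∀ c, Nat.card (A c) = p ^ n) ∧
      (∀ c, ∀ u ∈ A c, ∀ v ∈ A c, α c u v = 0) ∧ ∀ c c', c ≠ c' → A c ⊓ A c' = ⊥ := by
  intro n
  induction n with
  | zero =>
    intro V _ _ _ hV α hα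
    refine ⟨fun _ => ⊥, fun c => ?_, ?_, fun c c' _ => inf_idem _⟩
    · rw [pow_zero]
      exact Nat.card_unique
    · intro c u hu v _
      rw [(Submodule.mem_bot _).1 hu, map_zero, LinearMap.zero_apply]
  | succ n ih =>
    intro V _ _ _ hV α hα
    obtain ⟨a, b, hab, hne⟩ := pair (by omega) α hα
    set P : Submodule (ZMod p) V := Submodule.span (ZMod p) (Set.range ![a, b]) with hP
    have haP : a ∈ P := Submodule.subset_span ⟨0, rfl⟩
    have hbP : b ∈ P := Submodule.subset_span ⟨1, rfl⟩
    obtain ⟨V', hV'⟩ := Submodule.exists_isCompl P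
    have hfP : finrank (ZMod p) P = 2 := by
      rw [hP, finrank_span_eq_card hab, Fintype.card_fin]
    have hfV' : finrank (ZMod p) V' = 2 * n := by
      have h1 := Submodule.finrank_add_eq_of_isCompl hV'
      omega
    set t : ZMod p → V' →ₗ[ZMod p] ZMod p := fun c =>
      (-(α c a b)⁻¹) • ((α c (a + c • b)).comp V'.subtype) with ht
    set τ : ZMod p → V' →ₗ[ZMod p] V := fun c => V'.subtype + (t c).smulRight b with hτ
    have hτ1 : ∀ c (v : V'), τ c v = v + t c v • b := fun c v => rfl
    have hac : ∀ c (v : V'), α c (a + c • b) (τ c v) = 0 := by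
      intro c v
      by_cases hc : α c = 0
      · rw [hc]; rfl
      · have h1 := hne c hc
        have h2 : α c (a + c • b) b = α c a b := by
          rw [map_add, map_smul, LinearMap.add_apply, LinearMap.smul_apply, hα c b, smul_zero,
            add_zero]
        rw [hτ1, map_add, map_smul, h2]
        change α c (a + c • b) v + (-(α c a b)⁻¹ * (α c (a + c • b) v)) * α c a b = 0
        field_simp
        ring
    obtain ⟨A', hA1, hA2, hA3⟩ := ih V' hfV' (fun c => (α c).compl₁₂ (τ c) (τ c))
      (fun c v => hα c (τ c v))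
    set Ψ : (c : ZMod p) → (ZMod p × A' c) →ₗ[ZMod p] V := fun c =>
      (LinearMap.toSpanSingleton (ZMod p) V (a + c • b)).coprod ((τ c).comp (A' c).subtype) with hΨ
    have hΨ1 : ∀ c (x : ZMod p × A' c), Ψ c x = x.1 • (a + c • b) + τ c x.2 := fun c x => rfl
    -- comparison of two elements
    have key : ∀ (c c' : ZMod p) (s s' : ZMod p) (u u' : V'),
        s • (a + c • b) + τ c u = s' • (a + c' • b) + τ c' u' → u = u' := by
      intro c c' s s' u u' h
      have h1 : ((u - u' : V') : V) =
          s' • (a + c' • b) + t c' u' • b - (s • (a + c • b) + t c u • b) := by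
        rw [hτ1, hτ1] at h
        rw [Submodule.coe_sub, sub_eq_sub_iff_add_eq_add]
        have h2 : (u : V) + (s • (a + c • b) + t c u • b) =
            s • (a + c • b) + (↑u + t c u • b) := by abel
        rw [h2, h]
        abel
      have h2 : ((u - u' : V') : V) ∈ P := by
        rw [h1]
        refine P.sub_mem (P.add_mem (P.smul_mem _ ?_) (P.smul_mem _ hbP))
          (P.add_mem (P.smul_mem _ ?_) (P.smul_mem _ hbP))
        · exact P.add_mem haP (P.smul_mem _ hbP)
        · exact P.add_mem haP (P.smul_mem _ hbP)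
      have h3 : ((u - u' : V') : V) ∈ P ⊓ V' := ⟨h2, (u - u').2⟩
      rw [hV'.inf_eq_bot, Submodule.mem_bot] at h3
      exact sub_eq_zero.1 (Subtype.ext h3)
    have hli := LinearIndependent.pair_iff.1 hab
    have hinj : ∀ c, Function.Injective (Ψ c) := by
      intro c
      rw [← LinearMap.ker_eq_bot, LinearMap.ker_eq_bot']
      rintro ⟨s, u⟩ h
      rw [hΨ1] at h
      have h1 : (u : V') = 0 := by
        refine key c c s 0 u 0 ?_
        rw [h, zero_smul, map_zero, add_zero]
      rw [h1, map_zero, add_zero] at h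
      have h2 : s • a + (s * c) • b = 0 := by
        rw [smul_add, smul_smul] at h
        exact h
      have h3 := (hli _ _ h2).1
      exact Prod.ext h3 (Subtype.ext h1)
    refine ⟨fun c => LinearMap.range (Ψ c), fun c => ?_, ?_, ?_⟩
    · rw [← Nat.card_congr (LinearEquiv.ofInjective (Ψ c) (hinj c)).toEquiv, Nat.card_prod,
        Nat.card_zmod, hA1, pow_succ, mul_comm]
    · rintro c _ ⟨x, rfl⟩ _ ⟨y, rfl⟩
      rw [hΨ1, hΨ1]
      have h1 : ∀ v : V', α c (τ c v) (a + c • b) = 0 := by
        intro v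
        rw [← (hα c).neg, hac, neg_zero]
      have h2 : α c (τ c (x.2 : V')) (τ c (y.2 : V')) = 0 :=
        hA2 c _ x.2.2 _ y.2.2
      have h3 := h1 x.2
      have h4 := hac c y.2
      have h5 := hα c (a + c • b)
      generalize a + c • b = w at h3 h4 h5 ⊢
      generalize τ c (x.2 : V') = X at h2 h3 ⊢
      generalize τ c (y.2 : V') = Y at h2 h4 ⊢
      simp only [map_add, map_smul, LinearMap.add_apply, LinearMap.smul_apply, h2, h3, h4, h5,
        smul_zero, add_zero]
    · intro c c' hcc
      rw [Submodule.eq_bot_iff]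
      rintro v ⟨⟨x, hx⟩, ⟨y, hy⟩⟩
      rw [← hy, hΨ1, hΨ1] at hx
      have h1 := key c c' _ _ _ _ hx
      have h2 : (x.2 : V') ∈ A' c ⊓ A' c' := ⟨x.2.2, by rw [h1]; exact y.2.2⟩
      rw [hA3 c c' hcc, Submodule.mem_bot] at h2
      rw [← h1, h2, map_zero, map_zero, add_zero, add_zero] at hx
      have h3 : (x.1 - y.1) • a + (x.1 * c - y.1 * c') • b = 0 := by
        rw [smul_add, smul_add, smul_smul, smul_smul] at hx
        rw [sub_smul, sub_smul]
        have := sub_eq_zero.2 hx
        rw [← this]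
        abel
      obtain ⟨h4, h5⟩ := hli _ _ h3
      have h6 : x.1 = y.1 := sub_eq_zero.1 h4
      rw [← h6, ← mul_sub] at h5
      have h7 : x.1 = 0 := (mul_eq_zero.1 h5).resolve_right (sub_ne_zero.2 hcc)
      rw [← hy, hΨ1, ← h1, h2, ← h6, h7, zero_smul, map_zero, add_zero]

end Pool.Agent.Lib_MP_53dcbc_sd
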