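import Pool.Agent.Lib_MP_53dcbc_sd.Model
import Pool.Agent.Lib_MP_53dcbc_sd.Lagr

/-!
# Groups of odd prime exponent with a small central derived subgroup

Board note 2597, steps (1) and (4).
-/

set_option autoImplicit false

namespace Pool.Agent.Lib_MP_53dcbc_sd

open Pool.Agent.Lib_MP_53dcbc_np

/-- An alternating form on a space of odd dimension has a nonzero radical. -/
theorem radical {p v : ℕ} [Fact p.Prime] (hp2 : p ≠ 2) (hv : Odd v) (c : PT v → Fin 1 → ZMod p) :
    ∃ u : Fin v → ZMod p, u ≠ 0 ∧ ∀ u', bt c u u' = 0 := by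
  have hp := (Fact.out : p.Prime)
  have h2 : (2 : ZMod p) ≠ 0 := by
    intro h
    have h3 : ((2 : ℕ) : ZMod p) = 0 := by exact_mod_cast h
    rw [ZMod.natCast_eq_zero_iff] at h3
    exact hp2 ((Nat.prime_dvd_prime_iff_eq hp Nat.prime_two).1 h3)
  set A : Matrix (Fin v) (Fin v) (ZMod p) :=
    Matrix.of fun i j => bt c (Pi.single i 1) (Pi.single j 1) 0 with hA
  have hskew : A.transpose = -A := by
    ext i j
    change bt c (Pi.single j 1) (Pi.single i 1) 0 = - bt c (Pi.single i 1) (Pi.single j 1) 0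
    rw [bt_swap c (Pi.single i 1) (Pi.single j 1), Pi.neg_apply]
  have hdet : A.det = 0 := by
    have h1 : A.det = -A.det := by
      conv_lhs => rw [← Matrix.det_transpose, hskew, Matrix.det_neg, Fintype.card_fin,
        hv.neg_one_pow, neg_one_mul]
    have h3 : (2 : ZMod p) * A.det = 0 := by
      rw [two_mul]
      nth_rewrite 1 [h1]
      rw [neg_add_cancel]
    exact (mul_eq_zero.1 h3).resolve_left h2
  obtain ⟨u, hu, hu'⟩ := Matrix.exists_vecMul_eq_zero_iff.2 hdet
  refine ⟨u, hu, fun u' => ?_⟩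
  have hb : ∀ j : Fin v, bt c u (Pi.single j 1) 0 = 0 := by
    intro j
    have h1 := congrFun hu' j
    rw [Pi.zero_apply] at h1
    rw [← h1]
    have h3 : u = ∑ i, u i • (Pi.single i (1 : ZMod p) : Fin v → ZMod p) := by
      funext l
      rw [Finset.sum_apply, Finset.sum_eq_single l]
      · rw [Pi.smul_apply, Pi.single_eq_same, smul_eq_mul, mul_one]
      · intro i _ hij
        rw [Pi.smul_apply, Pi.single_eq_of_ne hij.symm, smul_zero]
      · exact fun h => absurd (Finset.mem_univ _) h
    conv_lhs => rw [h3]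
    rw [map_sum, LinearMap.sum_apply, Finset.sum_apply]
    change _ = ∑ i, u i * A i j
    refine Finset.sum_congr rfl fun i _ => ?_
    rw [map_smul, LinearMap.smul_apply, Pi.smul_apply, smul_eq_mul]
    rfl
  have h3 : u' = ∑ i, u' i • (Pi.single i (1 : ZMod p) : Fin v → ZMod p) := by
    funext l
    rw [Finset.sum_apply, Finset.sum_eq_single l]
    · rw [Pi.smul_apply, Pi.single_eq_same, smul_eq_mul, mul_one]
    · intro i _ hij
      rw [Pi.smul_apply, Pi.single_eq_of_ne hij.symm, smul_zero]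
    · exact fun h => absurd (Finset.mem_univ _) h
  rw [h3, map_sum]
  refine Finset.sum_eq_zero fun j _ => ?_
  rw [map_smul]
  funext l
  rw [Pi.smul_apply, Pi.zero_apply, Subsingleton.elim l 0, hb j, smul_zero]

/-- There is a central subgroup of order `p ^ 2` which contains the derived subgroup. -/
theorem exists_Z {G : Type} [Group G] [Finite G] {p a : ℕ} (hp : p.Prime) (hp2 : p ≠ 2)
    (ha : 1 ≤ a) (hG : Nat.card G = p ^ (2 * a)) (hexp : ∀ x : G, x ^ p = 1)
    (hc : ∀ x y : G, x * y * x⁻¹ * y⁻¹ ∈ Subgroup.center G)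
    (hd : Nat.card (commutator G) ≤ p ^ 2) :
    ∃ Z : Subgroup G, Nat.card Z = p ^ 2 ∧ Z ≤ Subgroup.center G ∧
      ∀ x y : G, x * y * x⁻¹ * y⁻¹ ∈ Z := by
  classical
  have : Fact p.Prime := ⟨hp⟩
  have : NeZero p := ⟨hp.ne_zero⟩
  have hcomm : ∀ x y : G, x * y * x⁻¹ * y⁻¹ ∈ commutator G := fun x y =>
    Subgroup.commutator_mem_commutator (Subgroup.mem_top x) (Subgroup.mem_top y)
  have hle : commutator G ≤ Subgroup.center G := by
    rw [commutator_def, Subgroup.commutator_le]
    exact fun x _ y _ => hc x y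
  obtain ⟨s, hs2, hs⟩ := (Nat.dvd_prime_pow hp).1
    (hG ▸ Subgroup.card_subgroup_dvd_card (Subgroup.center G))
  obtain ⟨t, ht2, ht⟩ := (Nat.dvd_prime_pow hp).1
    (hG ▸ Subgroup.card_subgroup_dvd_card (commutator G))
  have hts : t ≤ s := by
    have h1 : p ^ t ∣ p ^ s := by
      rw [← ht, ← hs]
      exact Subgroup.card_dvd_of_le hle
    exact (Nat.pow_dvd_pow_iff_le_right hp.one_lt).1 h1
  have hs3 : 2 ≤ s := by
    by_contra hlt
    have hcases : t = 0 ∨ (t = 1 ∧ s = 1) := by omega
    rcases hcases with h0 | ⟨h1, h1'⟩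
    · rw [h0, pow_zero] at ht
      have h3 : commutator G = ⊥ := Subgroup.card_eq_one.1 ht
      have h4 : Subgroup.center G = ⊤ := by
        rw [eq_top_iff]
        intro x _
        rw [Subgroup.mem_center_iff]
        intro g
        have h5 := hcomm g x
        rw [h3, Subgroup.mem_bot] at h5
        have h6 : g * x = x * g := by
          calc g * x = (g * x * g⁻¹ * x⁻¹) * (x * g) := by group
            _ = x * g := by rw [h5, one_mul]
        exact h6
      rw [h4, Subgroup.card_top, hG] at hs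
      have h5 := Nat.pow_right_injective hp.two_le hs
      omega
    · have hZ : commutator G = Subgroup.center G := by
        refine Subgroup.eq_of_le_of_card_ge hle ?_
        rw [hs, ht, h1, h1']
      have hv : 1 + (2 * a - 1) = 2 * a := by omega
      obtain ⟨c, ⟨e⟩⟩ := model (v := 2 * a - 1) (k := 1) hp hp2 (by rw [hv, hG]) hexp
        (Subgroup.center G) (by rw [hs, h1']) le_rfl hc
      obtain ⟨u, hu, hu'⟩ := radical hp2 ⟨a - 1, by omega⟩ c
      have hcard : Nat.card (Subgroup.center (Mg p (2 * a - 1) 1 c)) = p := by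
        rw [← Nat.card_congr (Subgroup.centerCongr e).toEquiv, hs, h1', pow_one]
      have hinj : p + 1 ≤ Nat.card (Subgroup.center (Mg p (2 * a - 1) 1 c)) := by
        have hfin : Finite (Mg p (2 * a - 1) 1 c) := Nat.finite_of_card_ne_zero (by
          rw [Mg.card]
          exact pow_ne_zero _ hp.ne_zero)
        let f : Option (ZMod p) → Subgroup.center (Mg p (2 * a - 1) 1 c) := fun o =>
          match o with
          | none => ⟨⟨u, 0⟩, by
              rw [Subgroup.mem_center_iff]
              intro g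
              rw [Mg.mul_def, Mg.mul_def]
              refine Mg.ext (add_comm _ _) ?_
              change g.z + 0 + bt c g.u u = 0 + g.z + bt c u g.u
              rw [bt_swap c u g.u, hu', neg_zero, add_comm g.z 0]⟩
          | some z => ⟨⟨0, fun _ => z⟩, by
              rw [Subgroup.mem_center_iff]
              intro g
              exact (Mg.central _ g).symm⟩
        have hf : Function.Injective f := by
          intro o o' h
          cases o with
          | none =>
            cases o' with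
            | none => rfl
            | some z' => exact absurd (congrArg (fun y => y.1.u) h) hu
          | some z =>
            cases o' with
            | none => exact absurd (congrArg (fun y => y.1.u) h).symm hu
            | some z' =>
              have h1 := congrArg (fun y => y.1.z 0) h
              exact congrArg some h1
        have h1 := Nat.card_le_card_of_injective f hf
        rwa [Nat.card_eq_fintype_card (α := Option (ZMod p)), Fintype.card_option, ZMod.card] at h1
      omega
  obtain ⟨z, hz1, hz2, hz3⟩ := chain hp (Subgroup.center G) (commutator G) hs hle hs3 hd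
  refine ⟨T z 2, hz1 2 hs3, hz2 ▸ T_mono z hs3, fun x y => hz3 (hcomm x y)⟩

/-- the functional with kernel the line of slope `c` -/
def ell {p : ℕ} (s : ZMod p) : (Fin 2 → ZMod p) →ₗ[ZMod p] ZMod p :=
  LinearMap.proj 1 - s • LinearMap.proj 0

theorem ell_apply {p : ℕ} (s : ZMod p) (z : Fin 2 → ZMod p) : ell s z = z 1 - s * z 0 := rfl

theorem pcp_model {p n : ℕ} [Fact p.Prime] (c : PT (2 * n) → Fin 2 → ZMod p) :
    ∃ U : ZMod p → Subgroup (Mg p (2 * n) 2 c), (∀ s, Nat.card (U s) = p ^ (n + 1)) ∧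
      ∀ s s', s ≠ s' → U s ⊓ U s' = ⊥ := by
  obtain ⟨A, hA1, hA2, hA3⟩ := lagr n (Fin (2 * n) → ZMod p)
    (by rw [Module.finrank_fin_fun]) (fun s => (bt c).compr₂ (ell s))
    (fun s u => by
      change ell s (bt c u u) = 0
      rw [bt_self, map_zero])
  let U : ZMod p → Subgroup (Mg p (2 * n) 2 c) := fun s =>
    { carrier := {x | x.u ∈ A s ∧ ell s x.z = 0}
      mul_mem' := by
        rintro x y ⟨hx, hx'⟩ ⟨hy, hy'⟩
        refine ⟨(A s).add_mem hx hy, ?_⟩
        change ell s (x.z + y.z + bt c x.u y.u) = 0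
        have h1 : ell s (bt c x.u y.u) = 0 := hA2 s _ hx _ hy
        rw [map_add, map_add, hx', hy', h1, add_zero, add_zero]
      one_mem' := ⟨(A s).zero_mem, map_zero _⟩
      inv_mem' := by
        rintro x ⟨hx, hx'⟩
        refine ⟨(A s).neg_mem hx, ?_⟩
        change ell s (-x.z) = 0
        rw [map_neg, hx', neg_zero] }
  refine ⟨U, fun s => ?_, fun s s' hss => ?_⟩
  · let e : U s ≃ A s × ZMod p :=
      { toFun := fun x => (⟨x.1.u, x.2.1⟩, x.1.z 0)
        invFun := fun y => ⟨⟨y.1, ![y.2, s * y.2]⟩, y.1.2, by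
          change s * y.2 - s * y.2 = 0
          rw [sub_self]⟩
        left_inv := by
          rintro ⟨x, hx, hx'⟩
          refine Subtype.ext (Mg.ext rfl ?_)
          rw [ell_apply, sub_eq_zero] at hx'
          funext l
          fin_cases l
          · rfl
          · exact hx'.symm
        right_inv := fun y => rfl }
    rw [Nat.card_congr e, Nat.card_prod, hA1, Nat.card_zmod, pow_succ]
  · rw [Subgroup.eq_bot_iff_forall]
    rintro x ⟨⟨hx1, hx2⟩, ⟨hx3, hx4⟩⟩
    have h1 : x.u ∈ A s ⊓ A s' := ⟨hx1, hx3⟩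
    rw [hA3 s s' hss, Submodule.mem_bot] at h1
    rw [ell_apply] at hx2 hx4
    have h2 : (s - s') * x.z 0 = 0 := by linear_combination hx4 - hx2
    have h3 : x.z 0 = 0 := (mul_eq_zero.1 h2).resolve_left (sub_ne_zero.2 hss)
    have h4 : x.z 1 = 0 := by
      rw [h3, mul_zero, sub_zero] at hx2
      exact hx2
    refine Mg.ext h1 ?_
    funext l
    fin_cases l
    · exact h3
    · exact h4

theorem pcp {G : Type} [Group G] {p a : ℕ} (hp : p.Prime) (hp2 : p ≠ 2)
    (ha : 1 ≤ a) (hG : Nat.card G = p ^ (2 * a)) (hexp : ∀ x : G, x ^ p = 1)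
    (hc : ∀ x y : G, x * y * x⁻¹ * y⁻¹ ∈ Subgroup.center G)
    (hd : Nat.card (commutator G) ≤ p ^ 2) :
    ∃ U : Fin p → Subgroup G, (∀ i, Nat.card (U i) = p ^ a) ∧
      ∀ i j, i ≠ j → U i ⊓ U j = ⊥ := by
  have : Fact p.Prime := ⟨hp⟩
  have : NeZero p := ⟨hp.ne_zero⟩
  have : Finite G := Nat.finite_of_card_ne_zero (by
    rw [hG]
    exact pow_ne_zero _ hp.ne_zero)
  obtain ⟨Z, hZ1, hZ2, hZ3⟩ := exists_Z hp hp2 ha hG hexp hc hd
  obtain ⟨n, rfl⟩ : ∃ n, a = n + 1 := ⟨a - 1, by omega⟩
  obtain ⟨c, ⟨e⟩⟩ := model (v := 2 * n) (k := 2) hp hp2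
    (by rw [hG]; congr 1; ring) hexp Z hZ1 hZ2 hZ3
  obtain ⟨U, hU1, hU2⟩ := pcp_model c
  have hcard : Fintype.card (Fin p) = Fintype.card (ZMod p) := by
    rw [Fintype.card_fin, ZMod.card]
  obtain ⟨ε⟩ := Fintype.card_eq.1 hcard
  refine ⟨fun i => (U (ε i)).comap e.toMonoidHom, fun i => ?_, fun i j hij => ?_⟩
  · rw [← hU1 (ε i)]
    exact Nat.card_congr (e.toEquiv.subtypeEquiv fun x => Iff.rfl)
  · rw [← Subgroup.comap_inf, hU2 _ _ (fun h => hij (ε.injective h))]
    rw [MonoidHom.comap_bot]
    exact (MonoidHom.ker_eq_bot_iff _).2 e.injective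

end Pool.Agent.Lib_MP_53dcbc_sd
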