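import Pool.Agent.Lib_MP_53dcbc_np.Gam
import Pool.Agent.Lib_MP_53dcbc_np.ExistB
import Pool.Agent.Lib_MP_53dcbc_np.LowerA

/-!
# Coordinates for groups of class two and odd prime exponent

Board note 2597, step (2).
-/

set_option autoImplicit false

namespace Pool.Agent.Lib_MP_53dcbc_sd

open Pool.Agent.Lib_MP_53dcbc_np

/-- the alternating bilinear map with given values on the pairs of basis vectors -/
noncomputable def bt {p v k : ℕ} (c : PT v → Fin k → ZMod p) :
    (Fin v → ZMod p) →ₗ[ZMod p] (Fin v → ZMod p) →ₗ[ZMod p] (Fin k → ZMod p) :=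
  LinearMap.mk₂ (ZMod p)
    (fun u u' => ∑ q : PT v, (u q.1.1 * u' q.1.2 - u q.1.2 * u' q.1.1) • c q)
    (fun u u' w => by
      rw [← Finset.sum_add_distrib]
      refine Finset.sum_congr rfl fun q _ => ?_
      rw [← add_smul, Pi.add_apply, Pi.add_apply]
      congr 1
      ring)
    (fun s u w => by
      rw [Finset.smul_sum]
      refine Finset.sum_congr rfl fun q _ => ?_
      rw [smul_smul, Pi.smul_apply, Pi.smul_apply, smul_eq_mul, smul_eq_mul]
      congr 1
      ring)
    (fun u w w' => by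
      rw [← Finset.sum_add_distrib]
      refine Finset.sum_congr rfl fun q _ => ?_
      rw [← add_smul, Pi.add_apply, Pi.add_apply]
      congr 1
      ring)
    (fun s u w => by
      rw [Finset.smul_sum]
      refine Finset.sum_congr rfl fun q _ => ?_
      rw [smul_smul, Pi.smul_apply, Pi.smul_apply, smul_eq_mul, smul_eq_mul]
      congr 1
      ring)

theorem bt_apply {p v k : ℕ} (c : PT v → Fin k → ZMod p) (u u' : Fin v → ZMod p) :
    bt c u u' = ∑ q : PT v, (u q.1.1 * u' q.1.2 - u q.1.2 * u' q.1.1) • c q := rfl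

theorem bt_self {p v k : ℕ} (c : PT v → Fin k → ZMod p) (u : Fin v → ZMod p) : bt c u u = 0 := by
  rw [bt_apply]
  refine Finset.sum_eq_zero fun q _ => ?_
  rw [mul_comm, sub_self, zero_smul]

theorem bt_swap {p v k : ℕ} (c : PT v → Fin k → ZMod p) (u u' : Fin v → ZMod p) :
    bt c u' u = - bt c u u' := by
  rw [bt_apply, bt_apply, ← Finset.sum_neg_distrib]
  refine Finset.sum_congr rfl fun q _ => ?_
  rw [← neg_smul]
  congr 1
  ring

/-- value on a pair of basis vectors -/
theorem bt_single {p v k : ℕ} (c : PT v → Fin k → ZMod p) (i j : Fin v) (h : i < j) :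
    bt c (Pi.single i 1) (Pi.single j 1) = c ⟨(i, j), h⟩ := by
  rw [bt_apply, Finset.sum_eq_single ⟨(i, j), h⟩]
  · simp only [Pi.single_eq_same, Pi.single_eq_of_ne h.ne, Pi.single_eq_of_ne h.ne', mul_one,
      mul_zero, sub_zero, one_smul]
  · rintro ⟨⟨i', j'⟩, h'⟩ _ hne
    have h1 : (Pi.single i (1 : ZMod p) : Fin v → ZMod p) i' *
        (Pi.single j (1 : ZMod p) : Fin v → ZMod p) j' = 0 := by
      by_cases hi : i' = i
      · by_cases hj : j' = j
        · exact absurd (by rw [Subtype.mk.injEq, hi, hj]) hne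
        · rw [Pi.single_eq_of_ne hj, mul_zero]
      · rw [Pi.single_eq_of_ne hi, zero_mul]
    have h2 : (Pi.single i (1 : ZMod p) : Fin v → ZMod p) j' *
        (Pi.single j (1 : ZMod p) : Fin v → ZMod p) i' = 0 := by
      by_cases hi : j' = i
      · by_cases hj : i' = j
        · have h3 : i' < j' := h'
          rw [hi, hj] at h3
          exact absurd h3 (not_lt_of_gt h)
        · rw [Pi.single_eq_of_ne hj, mul_zero]
      · rw [Pi.single_eq_of_ne hi, zero_mul]
    change ((Pi.single i (1 : ZMod p) : Fin v → ZMod p) i' *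
      (Pi.single j (1 : ZMod p) : Fin v → ZMod p) j' -
      (Pi.single i (1 : ZMod p) : Fin v → ZMod p) j' *
      (Pi.single j (1 : ZMod p) : Fin v → ZMod p) i') • _ = _
    rw [h1, h2, sub_zero, zero_smul]
  · exact fun h' => absurd (Finset.mem_univ _) h'

/-- the model group -/
@[ext] structure Mg (p v k : ℕ) (c : PT v → Fin k → ZMod p) where
  u : Fin v → ZMod p
  z : Fin k → ZMod p

noncomputable instance {p v k : ℕ} (c : PT v → Fin k → ZMod p) : Mul (Mg p v k c) :=
  ⟨fun x y => ⟨x.u + y.u, x.z + y.z + bt c x.u y.u⟩⟩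

instance {p v k : ℕ} (c : PT v → Fin k → ZMod p) : One (Mg p v k c) := ⟨⟨0, 0⟩⟩

instance {p v k : ℕ} (c : PT v → Fin k → ZMod p) : Inv (Mg p v k c) := ⟨fun x => ⟨-x.u, -x.z⟩⟩

noncomputable instance {p v k : ℕ} (c : PT v → Fin k → ZMod p) : Group (Mg p v k c) :=
  Group.ofLeftAxioms
    (fun x y z => Mg.ext (add_assoc _ _ _) (by
      change x.z + y.z + bt c x.u y.u + z.z + bt c (x.u + y.u) z.u =
        x.z + (y.z + z.z + bt c y.u z.u) + bt c x.u (y.u + z.u)
      rw [map_add, map_add, LinearMap.add_apply]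
      abel))
    (fun x => Mg.ext (zero_add _) (by
      change 0 + x.z + bt c 0 x.u = x.z
      rw [map_zero, LinearMap.zero_apply, zero_add, add_zero]))
    (fun x => Mg.ext (neg_add_cancel _) (by
      change -x.z + x.z + bt c (-x.u) x.u = 0
      rw [map_neg, LinearMap.neg_apply, bt_self]
      abel))

theorem Mg.mul_def {p v k : ℕ} {c : PT v → Fin k → ZMod p} (x y : Mg p v k c) :
    x * y = ⟨x.u + y.u, x.z + y.z + bt c x.u y.u⟩ := rfl

theorem Mg.one_def {p v k : ℕ} {c : PT v → Fin k → ZMod p} : (1 : Mg p v k c) = ⟨0, 0⟩ := rfl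

theorem Mg.inv_def {p v k : ℕ} {c : PT v → Fin k → ZMod p} (x : Mg p v k c) :
    x⁻¹ = ⟨-x.u, -x.z⟩ := rfl

theorem Mg.pow_def {p v k : ℕ} {c : PT v → Fin k → ZMod p} (x : Mg p v k c) (n : ℕ) :
    x ^ n = ⟨n • x.u, n • x.z⟩ := by
  induction n with
  | zero => rw [pow_zero, zero_smul, zero_smul, Mg.one_def]
  | succ n ih =>
    rw [pow_succ, ih, Mg.mul_def]
    refine Mg.ext ?_ ?_
    · change n • x.u + x.u = _
      rw [succ_nsmul]
    · change n • x.z + x.z + bt c (n • x.u) x.u = (n + 1) • x.z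
      rw [map_nsmul, LinearMap.smul_apply, bt_self, smul_zero, add_zero, succ_nsmul]

theorem Mg.comm_def {p v k : ℕ} {c : PT v → Fin k → ZMod p} (x y : Mg p v k c) :
    x * y * x⁻¹ * y⁻¹ = ⟨0, 2 • bt c x.u y.u⟩ := by
  rw [Mg.mul_def, Mg.mul_def, Mg.mul_def, Mg.inv_def, Mg.inv_def]
  refine Mg.ext ?_ ?_
  · change x.u + y.u + -x.u + -y.u = 0
    abel
  · change x.z + y.z + bt c x.u y.u + -x.z + bt c (x.u + y.u) (-x.u) + -y.z +
      bt c (x.u + y.u + -x.u) (-y.u) = 2 • bt c x.u y.u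
    have h1 : x.u + y.u + -x.u = y.u := by abel
    rw [h1, map_add, LinearMap.add_apply, map_neg, map_neg, map_neg, bt_self, bt_self,
      bt_swap c x.u y.u]
    abel

theorem Mg.central {p v k : ℕ} {c : PT v → Fin k → ZMod p} (z : Fin k → ZMod p) (x : Mg p v k c) :
    (⟨0, z⟩ : Mg p v k c) * x = x * ⟨0, z⟩ := by
  rw [Mg.mul_def, Mg.mul_def]
  refine Mg.ext (add_comm _ _) ?_
  change z + x.z + bt c 0 x.u = x.z + z + bt c x.u 0
  rw [map_zero, map_zero, LinearMap.zero_apply, add_comm z]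

theorem Mg.card {p v k : ℕ} [NeZero p] (c : PT v → Fin k → ZMod p) :
    Nat.card (Mg p v k c) = p ^ (k + v) := by
  let e : Mg p v k c ≃ (Fin v → ZMod p) × (Fin k → ZMod p) :=
    { toFun := fun x => (x.u, x.z)
      invFun := fun y => ⟨y.1, y.2⟩
      left_inv := fun _ => rfl
      right_inv := fun _ => rfl }
  rw [Nat.card_congr e, Nat.card_eq_fintype_card, Fintype.card_prod,
    Fintype.card_fun, Fintype.card_fun, ZMod.card, Fintype.card_fin, Fintype.card_fin, ← pow_add,
    add_comm]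

/-- the standard generating sequence of the model -/
def sq {p v k : ℕ} (c : PT v → Fin k → ZMod p) (i : ℕ) : Mg p v k c :=
  if h : i < k then ⟨0, Pi.single ⟨i, h⟩ 1⟩
  else if h' : i - k < v then ⟨Pi.single ⟨i - k, h'⟩ 1, 0⟩ else 1

theorem sq_low {p v k : ℕ} (c : PT v → Fin k → ZMod p) {i : ℕ} (h : i < k) :
    sq c i = ⟨0, Pi.single ⟨i, h⟩ 1⟩ := by
  unfold sq
  rw [dif_pos h]

theorem sq_high {p v k : ℕ} (c : PT v → Fin k → ZMod p) {i : ℕ} (h : ¬ i < k) (h' : i - k < v) :
    sq c i = ⟨Pi.single ⟨i - k, h'⟩ 1, 0⟩ := by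
  unfold sq
  rw [dif_neg h, dif_pos h']

theorem wd_sq {p v k : ℕ} (c : PT v → Fin k → ZMod p) (e : ℕ → ℕ) :
    ∀ i ≤ k, wd (sq c) e i = ⟨0, fun l => if (l : ℕ) < i then (e l : ZMod p) else 0⟩ := by
  intro i
  induction i with
  | zero =>
    intro _
    refine Mg.ext rfl ?_
    funext l
    rfl
  | succ i ih =>
    intro hi
    change sq c i ^ e i * wd (sq c) e i = _
    rw [ih (by omega), sq_low c (by omega : i < k), Mg.pow_def, Mg.mul_def]
    refine Mg.ext ?_ ?_
    · change e i • (0 : Fin v → ZMod p) + 0 = 0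
      rw [smul_zero, add_zero]
    · change e i • (Pi.single ⟨i, _⟩ (1 : ZMod p) : Fin k → ZMod p) + _ +
        bt c (e i • (0 : Fin v → ZMod p)) 0 = _
      rw [map_zero, add_zero]
      funext l
      rw [Pi.add_apply, Pi.smul_apply]
      by_cases hl : (l : ℕ) = i
      · have h1 : l = ⟨i, by omega⟩ := Fin.ext hl
        rw [h1, Pi.single_eq_same]
        simp
      · have h1 : l ≠ ⟨i, by omega⟩ := fun h => hl (congrArg Fin.val h)
        rw [Pi.single_eq_of_ne h1, smul_zero, zero_add]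
        change (if (l : ℕ) < i then (e l : ZMod p) else 0) =
          (if (l : ℕ) < i + 1 then (e l : ZMod p) else 0)
        by_cases h2 : (l : ℕ) < i
        · rw [if_pos h2, if_pos (by omega)]
        · rw [if_neg h2, if_neg (by omega)]

theorem T_sq {p v k : ℕ} [Fact p.Prime] (c : PT v → Fin k → ZMod p) : T (sq c) (k + v) = ⊤ := by
  have hcast : ∀ (z : Fin k → ZMod p), (⟨0, z⟩ : Mg p v k c) ∈ T (sq c) (k + v) := by
    intro z
    have h1 := wd_sq c (fun l => if h : l < k then (z ⟨l, h⟩).val else 0) k le_rfl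
    have h2 : (⟨0, z⟩ : Mg p v k c) =
        wd (sq c) (fun l => if h : l < k then (z ⟨l, h⟩).val else 0) k := by
      rw [h1]
      refine Mg.ext rfl ?_
      funext l
      change z l = if (l : ℕ) < k then _ else _
      rw [if_pos l.2, dif_pos l.2, ZMod.natCast_val, ZMod.cast_id]
    rw [h2]
    exact T_mono _ (by omega) (wd_mem _ _ _)
  let S : AddSubgroup (Fin v → ZMod p) :=
    { carrier := {u | ∃ z, (⟨u, z⟩ : Mg p v k c) ∈ T (sq c) (k + v)}
      zero_mem' := ⟨0, (T (sq c) (k + v)).one_mem⟩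
      add_mem' := by
        rintro u u' ⟨z, hz⟩ ⟨z', hz'⟩
        exact ⟨_, (T (sq c) (k + v)).mul_mem hz hz'⟩
      neg_mem' := by
        rintro u ⟨z, hz⟩
        exact ⟨_, (T (sq c) (k + v)).inv_mem hz⟩ }
  have hS : ∀ i : Fin v, (Pi.single i 1 : Fin v → ZMod p) ∈ S := by
    intro i
    refine ⟨0, ?_⟩
    have h1 := sq_high c (i := k + i) (by omega) (by omega)
    have h2 : (⟨Pi.single i 1, 0⟩ : Mg p v k c) = sq c (k + i) := by
      rw [h1]
      congr 2
      exact Fin.ext (by simp)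
    rw [h2]
    exact mem_T _ (by omega)
  have hall : ∀ u : Fin v → ZMod p, u ∈ S := by
    intro u
    have h1 : u = ∑ i, (u i).val • (Pi.single i 1 : Fin v → ZMod p) := by
      funext j
      rw [Finset.sum_apply, Finset.sum_eq_single j]
      · rw [Pi.smul_apply, Pi.single_eq_same, nsmul_eq_mul, mul_one, ZMod.natCast_val,
          ZMod.cast_id]
      · intro i _ hij
        rw [Pi.smul_apply, Pi.single_eq_of_ne hij.symm, smul_zero]
      · exact fun h => absurd (Finset.mem_univ _) h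
    rw [h1]
    exact S.sum_mem fun i _ => S.nsmul_mem (hS i) _
  rw [eq_top_iff]
  intro x _
  obtain ⟨z, hz⟩ := hall x.u
  have h1 : x = (⟨x.u, z⟩ : Mg p v k c) * ⟨0, x.z - z⟩ := by
    rw [Mg.mul_def]
    refine Mg.ext ?_ ?_
    · change x.u = x.u + 0
      rw [add_zero]
    · change x.z = z + (x.z - z) + bt c x.u 0
      rw [map_zero, add_zero]
      abel
  rw [h1]
  exact (T (sq c) (k + v)).mul_mem hz (hcast _)

theorem model {G : Type} [Group G] [Finite G] {p v k : ℕ} (hp : p.Prime) (hp2 : p ≠ 2)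
    (hG : Nat.card G = p ^ (k + v)) (hexp : ∀ x : G, x ^ p = 1) (Z : Subgroup G)
    (hZ : Nat.card Z = p ^ k) (hZc : Z ≤ Subgroup.center G)
    (hcom : ∀ x y : G, x * y * x⁻¹ * y⁻¹ ∈ Z) :
    ∃ c : PT v → Fin k → ZMod p, Nonempty (G ≃* Mg p v k c) := by
  classical
  have : Fact p.Prime := ⟨hp⟩
  have : NeZero p := ⟨hp.ne_zero⟩
  obtain ⟨x, hx1, hx2, hx3⟩ := chain hp (⊤ : Subgroup G) Z (m := k + v) (w := k)
    (by rw [Subgroup.card_top, hG]) le_top (by omega) hZ.le
  have hxk : T x k = Z := by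
    refine (Subgroup.eq_of_le_of_card_ge hx3 ?_).symm
    rw [hx1 k (by omega), hZ]
  have hcen : ∀ i < k, x i ∈ Subgroup.center G := fun i hi => hZc (hxk ▸ mem_T x hi)
  have hnorm : ∀ i, (T x i).Normal := normal_T x k hcen (fun y z => hxk ▸ hcom y z)
  have hnf := nf x (fun _ => p) (k + v) (fun i _ => hnorm i) (fun _ _ => hp.pos)
    (fun i _ => by rw [hexp]; exact (T x i).one_mem)
  have hF : ∀ i j : ℕ, ∃ e : ℕ → ℕ, x j * x i * (x j)⁻¹ * (x i)⁻¹ = wd x e k := by
    intro i j
    obtain ⟨e, -, -, he⟩ := hnf k (by omega) (x j * x i * (x j)⁻¹ * (x i)⁻¹)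
      (hxk ▸ hcom _ _)
    exact ⟨e, he.symm⟩
  choose F₀ hF₀ using hF
  set F : ℕ → ℕ → ℕ → ℕ := fun i j l => if i < k then 0 else F₀ i j l with hFdef
  have hzero : ∀ {H : Type} [Group H] (y : ℕ → H) (e : ℕ → ℕ) (i : ℕ), (∀ l, e l = 0) →
      wd y e i = 1 := by
    intro H _ y e i he
    exact wd_extend y e (Nat.zero_le i) (fun l _ _ => he l)
  have hRx : Rel (k + v) k (fun _ => p) (fun _ _ => 0) F x := by
    refine ⟨fun i _ => ?_, fun i j _ _ => ?_, fun i hi j _ => ?_⟩
    · rw [hexp, hzero x _ i (fun _ => rfl)]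
    · by_cases hik : i < k
      · rw [hzero x (F i j) k (fun l => if_pos hik)]
        have h1 := Subgroup.mem_center_iff.1 (hcen i hik) (x j)
        rw [h1]
        group
      · have h1 : F i j = F₀ i j := by
          funext l
          exact if_neg hik
        rw [h1]
        exact hF₀ i j
    · exact (Subgroup.mem_center_iff.1 (hcen i hi) (x j)).symm
  have h2 : (2 : ZMod p) ≠ 0 := by
    intro h
    have h3 : ((2 : ℕ) : ZMod p) = 0 := by exact_mod_cast h
    rw [ZMod.natCast_eq_zero_iff] at h3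
    exact hp2 ((Nat.prime_dvd_prime_iff_eq hp Nat.prime_two).1 h3)
  set c : PT v → Fin k → ZMod p := fun q l =>
    -(2 : ZMod p)⁻¹ * (F (k + q.1.1) (k + q.1.2) l : ZMod p) with hc
  refine ⟨c, ?_⟩
  have : Finite (Mg p v k c) := Nat.finite_of_card_ne_zero (by
    rw [Mg.card]
    exact pow_ne_zero _ hp.ne_zero)
  have hRy : Rel (k + v) k (fun _ => p) (fun _ _ => 0) F (sq c) := by
    refine ⟨fun i _ => ?_, fun i j hij hj => ?_, fun i hi j _ => ?_⟩
    · rw [hzero (sq c) _ i (fun _ => rfl), Mg.pow_def]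
      refine Mg.ext ?_ ?_
      · change p • (sq c i).u = 0
        funext l
        rw [Pi.smul_apply, nsmul_eq_mul, CharP.cast_eq_zero, zero_mul]
        rfl
      · change p • (sq c i).z = 0
        funext l
        rw [Pi.smul_apply, nsmul_eq_mul, CharP.cast_eq_zero, zero_mul]
        rfl
    · by_cases hik : i < k
      · rw [hzero (sq c) (F i j) k (fun l => if_pos hik), Mg.comm_def, sq_low c hik]
        refine Mg.ext rfl ?_
        change 2 • bt c (sq c j).u 0 = 0
        rw [map_zero, smul_zero]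
      · rw [Mg.comm_def, wd_sq c _ k le_rfl, sq_high c hik (by omega : i - k < v),
          sq_high c (by omega : ¬ j < k) (by omega : j - k < v)]
        refine Mg.ext rfl ?_
        change 2 • bt c (Pi.single ⟨j - k, _⟩ 1) (Pi.single ⟨i - k, _⟩ 1) = _
        rw [bt_swap c (Pi.single ⟨i - k, _⟩ 1) (Pi.single ⟨j - k, _⟩ 1),
          bt_single c ⟨i - k, by omega⟩ ⟨j - k, by omega⟩ (by
            change i - k < j - k
            omega)]
        funext l
        rw [Pi.smul_apply, Pi.neg_apply, nsmul_eq_mul]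
        change ((2 : ℕ) : ZMod p) * -(-(2 : ZMod p)⁻¹ *
          (F (k + (i - k)) (k + (j - k)) l : ZMod p)) =
          if (l : ℕ) < k then (F i j l : ZMod p) else 0
        rw [if_pos l.2]
        rw [Nat.add_sub_cancel' (by omega : k ≤ i), Nat.add_sub_cancel' (by omega : k ≤ j)]
        push_cast
        field_simp
    · rw [sq_low c hi]
      exact Mg.central _ _
  have hprod : ∏ i ∈ Finset.range (k + v), (fun _ : ℕ => p) i = p ^ (k + v) := by
    rw [Finset.prod_const, Finset.card_range]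
  exact iso_of_rel hRx hRy (by omega) (fun _ _ => hp.pos) hx2 (T_sq c) (by rw [hG, hprod])
    (by rw [Mg.card, hprod])

end Pool.Agent.Lib_MP_53dcbc_sd
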